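import Pool.Agent.TH21.CM.Main

/-!
# `π` and `j'` at almost all tuples of special points, relations with very large coefficients

For special points `z_1, …, z_m` in different `GL_2(ℚ)`-orbits (and `j' (z_k) ≠ 0`) the conjecture of the problem says
that the field generated by the `z_k`, `j (z_k)`, `j' (z_k)`, `j'' (z_k)` has transcendence degree at least `m`; the
generalised period conjecture predicts that `π`, `j' (z_1), …, j' (z_m)` are algebraically independent (`j' (z_k)` is up to
an algebraic factor and a power of `π` the square of a period of an elliptic curve with complex multiplication by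
`ℚ (z_k)`). For `m = 1` this is Chudnovsky's theorem; for `m ≥ 2` nothing is known.

We consider the points `z_k = √(-D_k)`, for `m`-tuples `(D_1, …, D_m)` of positive integers `≤ N`, and prove for all but
`C N ^ (m - 1/2) log H` of the `N ^ m` tuples: every nonzero polynomial `P` in `m + 1` variables with integer
coefficients of absolute value at most `H` and of degree at most `d` in each variable satisfies
`|P (π, j' (√(-D_1)), …, j' (√(-D_m)))| > H ^ (-B)`, where `B` depends only on `m` and `d`. Here `H ≥ 2` and `N ≥ 1` are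
arbitrary; for instance `H` can be `exp (N ^ (1/2 - ε))`, and still almost all tuples are good.

More generally, the points `z_k = i s_k D_k ^ r_k` are allowed with any `s_k > 0`, `0 < ρ ≤ r_k ≤ 1`, for instance
`s_k = 1`, `r_k = 1/2` for special points and `r_k = 1/3` for points which are not special (unless `D_k` is a cube);
for every `k` one of the numbers `j (z_k)`, `j' (z_k)` is taken.

Proof (`Pool.Agent.TH21.CM`): `log |j' (z_k)|` is `2π s_k D_k ^ r_k` up to a bounded error, and for all but a few tuples the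
integer combinations `∑ c_k s_k D_k ^ r_k`, `|c_k| ≤ d`, are much larger than `log H`; so one monomial dominates, whose
coefficient, a polynomial in `π`, is not too small by the measure of transcendence of `π` (`Pool.Agent.TH818.AP`).
-/

set_option autoImplicit false

namespace Pool.Agent.Results.MP_f58a57_nt.AlmostAllSpecialTuples

/-- the normalised Eisenstein series of weight `4` -/
noncomputable def E4 (τ : ℂ) : ℂ :=
  1 + 240 * ∑' m : ℕ, ((ArithmeticFunction.sigma 3 (m + 1) : ℕ) : ℂ) *
    Complex.exp (2 * (Real.pi : ℂ) * Complex.I * τ) ^ (m + 1)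

/-- the normalised Eisenstein series of weight `6` -/
noncomputable def E6 (τ : ℂ) : ℂ :=
  1 - 504 * ∑' m : ℕ, ((ArithmeticFunction.sigma 5 (m + 1) : ℕ) : ℂ) *
    Complex.exp (2 * (Real.pi : ℂ) * Complex.I * τ) ^ (m + 1)

/-- the modular invariant `j = q⁻¹ + 744 + 196884 q + ⋯` -/
noncomputable def j (τ : ℂ) : ℂ := 1728 * E4 τ ^ 3 / (E4 τ ^ 3 - E6 τ ^ 2)

/-- `j' (z)` (complex derivative) if `b` is true, `j (z)` if `b` is false -/
noncomputable def value (b : Bool) (z : ℂ) : ℂ := if b then deriv j z else j z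

/-- the `m + 1` numbers: `π`, and `j' (z_k)` or `j (z_k)` (according to `b_k`) at `z_k = i s_k D_k ^ r_k` -/
noncomputable def numbers {m : ℕ} (b : Fin m → Bool) (s r : Fin m → ℝ) (D : Fin m → ℕ) (i : Option (Fin m)) : ℂ :=
  i.elim (Real.pi : ℂ) fun k => value (b k) (Complex.I * ((s k * (D k : ℝ) ^ r k : ℝ) : ℂ))

/-- The `m`-tuples `D` of positive integers `≤ N` for which some nonzero polynomial with integer coefficients of
absolute value at most `H`, of degree at most `d` in each variable, takes at the `m + 1` numbers a value of absolute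
value at most `H ^ (-B)`. -/
def Exceptional {m : ℕ} (d : ℕ) (b : Fin m → Bool) (s r : Fin m → ℝ) (B : ℝ) (N : ℕ) (H : ℝ) : Set (Fin m → ℕ) :=
  {D | (∀ k, 1 ≤ D k ∧ D k ≤ N) ∧ ∃ P : MvPolynomial (Option (Fin m)) ℤ, P ≠ 0 ∧ (∀ i, P.degreeOf i ≤ d) ∧
    (∀ e, |((P.coeff e : ℤ) : ℝ)| ≤ H) ∧ ‖MvPolynomial.aeval (numbers b s r D) P‖ ≤ H ^ (-B)}

/-- Let `m ≥ 1`, `d ≥ 0`, `s_k > 0` and `0 < ρ ≤ r_k ≤ 1`. There are `B` and `C` such that for all integers `N ≥ 1` and all
real numbers `H ≥ 2` the number of exceptional `m`-tuples is at most `C N ^ (m - ρ) log H`. -/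
theorem result (m d : ℕ) (hm : 1 ≤ m) (b : Fin m → Bool) (s r : Fin m → ℝ) (ρ : ℝ) (hρ : 0 < ρ)
    (hs : ∀ k, 0 < s k) (hr : ∀ k, ρ ≤ r k) (hr1 : ∀ k, r k ≤ 1) :
    ∃ B C : ℝ, ∀ (N : ℕ) (H : ℝ), 1 ≤ N → 2 ≤ H → (Exceptional d b s r B N H).Finite ∧
      ((Exceptional d b s r B N H).ncard : ℝ) ≤ C * (N : ℝ) ^ ((m : ℝ) - ρ) * Real.log H :=
  Pool.Agent.TH21.CM.cmmain m d hm b s r ρ hρ ((hr ⟨0, hm⟩).trans (hr1 ⟨0, hm⟩)) hs hr hr1

end Pool.Agent.Results.MP_f58a57_nt.AlmostAllSpecialTuples
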