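import Pool.Agent.TH21.MS.H3

/-!
# Special and generic points together

The modular Schanuel conjecture with derivatives and special points predicts transcendence degree at
least `3 m_1 + m_2` for `m_1` non-special and `m_2` special points in different orbits (with
`j' ≠ 0`). We take the points `i s_k q`, `k = 1, …, m`, with positive real numbers `s_k`, linearly
independent over `ℚ` (these points are special for all rational `q` if the `s_k ^ 2` are rational,
for instance for the square roots of different squarefree integers), and the points `i f_k (q)`,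
`k = 1, …, n`, with `t ≪ f_1 (t) ≪ f_2 (t) ≪ ⋯`, for instance `f_k (t) = t ^ r_k` with rational
`1 < r_1 < r_2 < ⋯` (algebraic points, not special unless `q` is a power). For all but a very sparse
set of rational `q` the `m + 3 n` numbers `j' (i s_k q)` and `j (z_k), j' (z_k), j'' (z_k)`,
`z_k = i f_k (q)`, satisfy no polynomial relation of bounded degree whose integer coefficients are
bounded by a fixed power of the denominator bound `T`. There are about `T ^ 2` rational numbers of
denominator at most `T` in an interval; all but `C T ^ β` of them are good, for every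
`β > 2 - 2 / ((d + 1) ^ (m + 3 n) + 1)`.

Proof: as for `MP_ede373_nt.AlmostAllWithDerivatives`; the points `i s_k q` form the base of the
induction, where the growth of the monomials is used.
-/

set_option autoImplicit false

open Set Filter

namespace Pool.Agent.Results.MP_f58a57_nt.SpecialAndGenericPoints

/-- the normalised Eisenstein series of weight `4` -/
noncomputable def E4 (τ : ℂ) : ℂ :=
  1 + 240 * ∑' m : ℕ, ((ArithmeticFunction.sigma 3 (m + 1) : ℕ) : ℂ) *
    Complex.exp (2 * (Real.pi : ℂ) * Complex.I * τ) ^ (m + 1)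

/-- the normalised Eisenstein series of weight `6` -/
noncomputable def E6 (τ : ℂ) : ℂ :=
  1 - 504 * ∑' m : ℕ, ((ArithmeticFunction.sigma 5 (m + 1) : ℕ) : ℂ) *
    Complex.exp (2 * (Real.pi : ℂ) * Complex.I * τ) ^ (m + 1)

/-- the modular invariant `j = q⁻¹ + 744 + 196884 q + ⋯` -/
noncomputable def j (τ : ℂ) : ℂ := 1728 * E4 τ ^ 3 / (E4 τ ^ 3 - E6 τ ^ 2)

/-- `j (z), j' (z), j'' (z)` (complex derivatives) -/
noncomputable def jet (z : ℂ) : Fin 3 → ℂ := ![j z, deriv j z, deriv (deriv j) z]

/-- the `m + 3 n` numbers `j' (i s_k t)`, `k = 1, …, m`, and `j (z_k), j' (z_k), j'' (z_k)`,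
`z_k = i f_k (t)`, `k = 1, …, n` -/
noncomputable def numbers {m n : ℕ} (s : Fin m → ℝ) (f : Fin n → ℝ → ℝ) (t : ℝ) :
    Fin m ⊕ (Fin n × Fin 3) → ℂ :=
  Sum.elim (fun k => deriv j (Complex.I * ((s k * t : ℝ) : ℂ)))
    (fun p => jet (Complex.I * (f p.1 t : ℂ)) p.2)

/-- The numbers `x_p` satisfy a nontrivial polynomial relation with integer coefficients of absolute
value at most `H`, of degree at most `d` in each variable. -/
def Related {ι : Type} (d : ℕ) (H : ℝ) (x : ι → ℂ) : Prop :=
  ∃ P : MvPolynomial ι ℤ, P ≠ 0 ∧ (∀ p, P.degreeOf p ≤ d) ∧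
    (∀ e, |((P.coeff e : ℤ) : ℝ)| ≤ H) ∧ MvPolynomial.aeval x P = 0

/-- The rational numbers `q` in `[a, b]` with denominator at most `T` for which the `m + 3 n` numbers
satisfy a nontrivial polynomial relation of degree at most `d` in each variable with integer
coefficients of absolute value at most `T ^ A`. -/
def Bad {m n : ℕ} (s : Fin m → ℝ) (f : Fin n → ℝ → ℝ) (d : ℕ) (A a b T : ℝ) : Set ℚ :=
  {q : ℚ | (q : ℝ) ∈ Icc a b ∧ (q.den : ℝ) ≤ T ∧ Related d (T ^ A) (numbers s f (q : ℝ))}

/-- The number of bad rational numbers is at most `C T ^ β`, for every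
`β > 2 - 2 / ((d + 1) ^ (m + 3 n) + 1)`. -/
theorem result (m n d : ℕ) (A a b β : ℝ) (ha : 0 < a) (hab : a < b)
    (hβ : 2 - 2 / (((d : ℝ) + 1) ^ (m + 3 * n) + 1) < β)
    (s : Fin m → ℝ) (hs : ∀ k, 0 < s k) (hind : LinearIndependent ℚ s) (f : Fin n → ℝ → ℝ)
    (hf : ∀ k, AnalyticOnNhd ℝ (f k) (Ici a)) (hpos : ∀ k, ∀ t, a ≤ t → 0 < f k t)
    (hgrowth0 : ∀ k, Tendsto (fun t => f k t / t) atTop atTop)
    (hgrowth : ∀ k l, k < l → Tendsto (fun t => f l t / f k t) atTop atTop) :
    ∃ C : ℝ, ∀ T : ℝ, 1 ≤ T →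
      (Bad s f d A a b T).Finite ∧ ((Bad s f d A a b T).ncard : ℝ) ≤ C * T ^ β :=
  Pool.Agent.TH21.MS.specmain s hs hind f a ha hf hpos hgrowth0 hgrowth d A b hab β hβ

end Pool.Agent.Results.MP_f58a57_nt.SpecialAndGenericPoints
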